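import Pool.Graph.R_pool_sql_team_seeded_2aa45f1a.Q311.LN.Lin
import Pool.Graph.R_pool_sql_team_seeded_2aa45f1a.Q311.LN.Ratio
import Pool.Graph.R_pool_sql_team_seeded_2aa45f1a.Q311.LN.Dns

/-!
# Families on all Shimura varieties: the hyperbolic analytic subspace conjecture at almost all points

Let `S = Γ \ X` be any Shimura variety, `o ∈ X` a special point, `T_o X` the tangent space, which contains the
Harish-Chandra realisation of `X`, with its geometric and its arithmetic `ℚ̄`-structure. With a basis of vectors in lines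
which are rational for both structures, `T_o X = ℂ ^ I`, the geometric structure consists of the vectors with algebraic
coordinates and the arithmetic structure of the vectors `w` for which all `lam i * w i` are algebraic (`lam i` is a
quotient of products of periods of CM motives; for the moduli spaces of abelian varieties `lam (j, j') = θ_j θ_j' / π`).
Q1 says: if `z ∈ X` lies above an algebraic point of `S` and in a subspace `V` which is rational for the arithmetic
structure, then there is a subspace `V' ⊆ V` which contains `z` and is rational for both structures.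

We consider the points `z` which come from algebraic points of arbitrary families on `S`: let `W → S` be a
morphism of varieties over `ℚ̄`, and let `S_M` be the special (or weakly special) subvariety in which its image is
dense, `X_M ⊆ X` the symmetric subspace of `S_M` and `X_M^∨` its compact dual. In a chart `U` of (an étale covering of a
part of) `W` with coordinates `x ∈ ℂ ^ X` the variation of Hodge structures is given by its period matrices `Y x`, with
respect to bases of the de Rham cohomology adapted to the Hodge filtration. The monodromy is dense in an algebraic group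
`G` which acts transitively on `X_M^∨` (André, Deligne), and coordinates of `X_M^∨`, for instance the
Harish-Chandra coordinates at a special point of `X_M`, are rational functions `num r / den`, `r ∈ R`, of the period
matrices (`Family`). There is no condition on the type of `X`; the exceptional symmetric spaces and those of type `D`
of the groups `SO*(2n)` are included, and the special point `o` need not be in `X_M`. The lifts `z` of the algebraic
point of `S` below `x` and of all its translates by Hecke operators are the points `γ z₀`, `γ ∈ 𝐆(ℚ)` where `𝐆` is the group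
of `S`, `z₀ ∈ X_M` the period point. The Harish-Chandra coordinates of `γ z₀` at `o` are rational functions `P i / Q`,
`i ∈ I`, of the coordinates `w r` of `z₀` and of the entries `a t`, `t ∈ A`, of `γ` (`point`). They depend on `γ` and `o`;
the following is proved for all of them at the same time (with bounds for the degrees and the heights which tend to
infinity). Let `L` be the linear span in `T_o X` of the special subvariety `γ X_M` (`linSpan`).

Theorem. For all algebraic points `x` of height at most `T`, over all number fields of degree at most `ω T`,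
apart from those on few hypersurfaces of small degree (`Few`), for all `γ` and all `V` given by small equations over the
number field, and for all special points `o` (that is for all `P`, `Q`, `lam` with degrees at most `ω T`), `ω T → ∞`:
1. If `z = γ z₀` is in `V` then `V` contains `L`, the span of the whole special subvariety.
2. If Q1 is true for some set of points which spans `L`, for instance for the special points of `γ X_M`, then it is
  true for `z` and `V`. So Q1 for special points implies Q1 for the points of all families, up to the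
  exceptional ones.
3. If `P` has algebraic coefficients (as it has for special `S_M`) and the numbers `lam i` are, up to algebraic
  factors, of the form `ν θ ^ (m i)`, then Q1 is true for `z` and `V`, unconditionally. This is so for all `S` of dimension at most
  `2`, and for `S = 𝔸_g`, any `g`, if the abelian variety `[o]` is isogenous to `E₁ ^ a × E₂ ^ b` for elliptic curves
  `E₁`, `E₂` with complex multiplication (`θ = θ₂ / θ₁`, `ν = θ₁² / π`); these `o` are dense in the Siegel space.
-/

set_option autoImplicit false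

open Filter NumberField Pool.Agent.Q311.MV Pool.Agent.Q311.LN
open Pool.Agent.Y119.PLM (MT Ix IsMon)
open Pool.Agent.Y890.MV (InnerM evM)

namespace Pool.Agent.Results.MP_1e27bd_ag.AllShimuraVarieties

/-- the value of a polynomial at a tuple of matrices -/
noncomputable def ev {κ : Type} {n : κ → ℕ} (g : MT n) (p : MvPolynomial (Ix n) ℂ) : ℂ :=
  MvPolynomial.eval (fun i : Ix n => g i.1 i.2.1 i.2.2) p

/-- **Families with monodromy dense in `G`**, given by their period matrices `Y x` (tuples of matrices, one for each of the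
local systems indexed by `κ`), and rational coordinates `num r / den` of the period matrices such that the coordinates of
`Y x * g`, `g ∈ G`, take almost all values. -/
structure Family {X κ R : Type} [Fintype X] {n : κ → ℕ} (U : Set (X → ℂ)) (Y : (X → ℂ) → MT n) (G : Set (MT n))
    (num : R → MvPolynomial (Ix n) ℂ) (den : MvPolynomial (Ix n) ℂ) : Prop where
  isOpen : IsOpen U
  isPreconnected : IsPreconnected U
  nonempty : U.Nonempty
  analytic : ∀ j a b, AnalyticOnNhd ℂ (fun x => Y x j a b) U
  /-- the polynomials which vanish on the monodromy of `Y` vanish on `G` -/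
  dense : DenseIn U Y G
  /-- the points of the family are in the chart of the compact dual given by the coordinates -/
  chart : ∀ x ∈ U, ev (Y x) den ≠ 0
  /-- the group `G` acts transitively on the compact dual: for all `x ∈ U` the coordinates of `Y x * g`, `g ∈ G`, take
  all values `w` with `q w ≠ 0` -/
  transitive : ∃ q : MvPolynomial R ℂ, q ≠ 0 ∧ ∀ x ∈ U, ∀ w : R → ℂ, MvPolynomial.eval w q ≠ 0 →
    ∃ g ∈ G, ev (Y x * g) den ≠ 0 ∧ ∀ r, ev (Y x * g) (num r) = w r * ev (Y x * g) den

/-- the coordinates of the points of the family: quotients of polynomials in the entries of the period matrices -/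
noncomputable def coord {X κ R : Type} {n : κ → ℕ} (Y : (X → ℂ) → MT n) (num : R → MvPolynomial (Ix n) ℂ)
    (den : MvPolynomial (Ix n) ℂ) (r : R) (x : X → ℂ) : ℂ := ev (Y x) (num r) / ev (Y x) den

section indep
variable {X κ R : Type} [Fintype X] {n : κ → ℕ}

/-- rational functions with many values on the torsors are independent -/
theorem indep_ratio' {σ : Type} {U : Set (X → ℂ)} (hU : IsOpen U) (hne : U.Nonempty) {f : σ → (X → ℂ) → ℂ}
    {S : (X → ℂ) → Set (σ → ℂ)}
    (hS : ∀ Q : MvPolynomial σ (MvPolynomial X ℂ), (∀ x ∈ U, evM f x Q = 0) → ∀ x ∈ U, ∀ y ∈ S x,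
      MvPolynomial.eval₂ (MvPolynomial.eval x) y Q = 0)
    (num : R → MvPolynomial σ ℂ) (den : MvPolynomial σ ℂ)
    (hden : ∀ x ∈ U, MvPolynomial.eval (fun i => f i x) den ≠ 0) {q : MvPolynomial R ℂ} (hq : q ≠ 0)
    (hval : ∀ x ∈ U, ∀ w : R → ℂ, MvPolynomial.eval w q ≠ 0 → ∃ y ∈ S x, MvPolynomial.eval y den ≠ 0 ∧
      ∀ k, MvPolynomial.eval y (num k) = w k * MvPolynomial.eval y den) :
    IndepM U fun k x => MvPolynomial.eval (fun i => f i x) (num k) / MvPolynomial.eval (fun i => f i x) den := by
  intro P hP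
  have h1 : ∀ x ∈ U, evM f x (hom num den P.totalDegree P) = 0 := by
    intro x hx
    unfold evM
    rw [hom_eval num den P le_rfl x (fun i => f i x) (hden x hx)]
    have h2 := hP x hx
    unfold evM at h2
    rw [h2, mul_zero]
  have h2 := hS _ h1
  have h3 : ∀ x ∈ U, MvPolynomial.map (MvPolynomial.eval x) P = 0 := by
    intro x hx
    have h4 : MvPolynomial.map (MvPolynomial.eval x) P * q = 0 := by
      apply MvPolynomial.funext
      intro w
      rw [map_mul, map_zero]
      by_cases hw : MvPolynomial.eval w q = 0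
      · rw [hw, mul_zero]
      obtain ⟨y, hy, hyd, hyn⟩ := hval x hx w hw
      have h5 := h2 x hx y hy
      rw [hom_eval num den P le_rfl x y hyd] at h5
      have h6 := (mul_eq_zero.1 h5).resolve_left (pow_ne_zero _ hyd)
      have h7 : (fun k => MvPolynomial.eval y (num k) / MvPolynomial.eval y den) = w := by
        funext k
        rw [hyn k, mul_div_cancel_right₀ _ hyd]
      rw [h7] at h6
      rw [MvPolynomial.eval_map, h6, zero_mul]
    exact (mul_eq_zero.1 h4).resolve_right hq
  ext m : 1
  rw [MvPolynomial.coeff_zero]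
  refine poly_zero hU hne fun x hx => ?_
  have h4 := congrArg (MvPolynomial.coeff m) (h3 x hx)
  rwa [MvPolynomial.coeff_map, MvPolynomial.coeff_zero] at h4

/-- the coordinates are algebraically independent over `ℂ(x)` -/
theorem coord_indep {U : Set (X → ℂ)} {Y : (X → ℂ) → MT n} {G : Set (MT n)} {num : R → MvPolynomial (Ix n) ℂ}
    {den : MvPolynomial (Ix n) ℂ} (h : Family U Y G num den) : IndepM U (coord Y num den) := by
  obtain ⟨q, hq, hval⟩ := h.transitive
  refine indep_ratio' (f := fun (i : Ix n) x => Y x i.1 i.2.1 i.2.2)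
    (S := fun x => {y | ∃ g ∈ G, ∀ i : Ix n, y i = (Y x * g) i.1 i.2.1 i.2.2}) h.isOpen h.nonempty ?_ num den
    h.chart hq ?_
  · rintro Q hQ x hx y ⟨g, hg, hy⟩
    have h1 := dns_mem h.isPreconnected h.analytic h.dense g hg Q hQ x hx
    have h2 : y = fun i : Ix n => (Y x * g) i.1 i.2.1 i.2.2 := funext hy
    rw [h2]
    exact h1
  · intro x hx w hw
    obtain ⟨g, hg, h1, h2⟩ := hval x hx w hw
    exact ⟨fun i => (Y x * g) i.1 i.2.1 i.2.2, ⟨g, hg, fun _ => rfl⟩, h1, h2⟩

/-- the coordinates are analytic -/
theorem coord_an [Finite κ] {U : Set (X → ℂ)} {Y : (X → ℂ) → MT n} {G : Set (MT n)} {num : R → MvPolynomial (Ix n) ℂ}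
    {den : MvPolynomial (Ix n) ℂ} (h : Family U Y G num den) (r : R) : AnalyticOnNhd ℂ (coord Y num den r) U := by
  classical
  have : Fintype κ := Fintype.ofFinite κ
  have hf : ∀ k : Ix n, AnalyticOnNhd ℂ (fun x => Y x k.1 k.2.1 k.2.2) U := fun k => h.analytic k.1 k.2.1 k.2.2
  intro x hx
  exact (evc_an hf (num r) x hx).fun_div (evc_an hf den x hx) (h.chart x hx)

end indep

section lin
variable {R A I : Type} [Fintype R] [DecidableEq R] [Fintype A] [DecidableEq A] [Fintype I]

/-- expansion in monomials -/
theorem eval_expand {d : ℕ} {p : MvPolynomial (R ⊕ A) ℂ} (hp : ∀ v, p.degreeOf v ≤ d) (w : R → ℂ) (a : A → ℂ) :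
    MvPolynomial.eval (Sum.elim w a) p = ∑ μ : (R ⊕ A) → Fin (d + 1),
      p.coeff (Finsupp.equivFunOnFinite.symm fun v => (μ v : ℕ)) *
        ((∏ r, w r ^ (μ (Sum.inl r) : ℕ)) * ∏ t, a t ^ (μ (Sum.inr t) : ℕ)) := by
  conv_lhs => rw [← sum_exp hp]
  rw [map_sum]
  refine Finset.sum_congr rfl fun μ _ => ?_
  rw [MvPolynomial.eval_monomial, Finsupp.prod_fintype _ _ (fun i => pow_zero _), Fintype.prod_sum_type]
  rfl

/-- the constants -/
noncomputable def cst {d : ℕ} (F : I → MvPolynomial (R ⊕ A) ℂ) (lam : I → ℂ) (k : ℕ)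
    (e : I × ((R ⊕ A) → Fin (d + 1)) ↪ Fin k) : Fin k → ℂ :=
  Function.extend e (fun p => lam p.1 * (F p.1).coeff (Finsupp.equivFunOnFinite.symm fun v => (p.2 v : ℕ))) 0

/-- linear relations with small coefficients between the coordinates at independent points are identities -/
theorem key {d k : ℕ} (F : I → MvPolynomial (R ⊕ A) ℂ) (lam : I → ℂ) (hF : ∀ i v, (F i).degreeOf v ≤ d) (hd : d ≤ k)
    (e : I × ((R ⊕ A) → Fin (d + 1)) ↪ Fin k) {K : Type} [Field K] [NumberField K] {io : K →+* ℂ} {T : ℝ}
    (hT : 1 ≤ T) {y : R → ℂ} (h : Independent k K io (cst F lam k e) T y) (c : I → 𝓞 K) (a : A → 𝓞 K) {k0 : ℕ}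
    (hk : k0 * (1 + d * Fintype.card A) ≤ k) (hc : ∀ i (φ : K →+* ℂ), ‖φ (c i : K)‖ ≤ T ^ k0)
    (ha : ∀ t (φ : K →+* ℂ), ‖φ (a t : K)‖ ≤ T ^ k0)
    (h0 : ∑ i, io (c i : K) * (lam i * MvPolynomial.eval (Sum.elim y fun t => io (a t : K)) (F i)) = 0) (w : R → ℂ) :
    ∑ i, io (c i : K) * (lam i * MvPolynomial.eval (Sum.elim w fun t => io (a t : K)) (F i)) = 0 := by
  classical
  let low : ((R ⊕ A) → Fin (d + 1)) → R → Fin (k + 1) := fun μ r =>
    ⟨(μ (Sum.inl r) : ℕ), lt_of_lt_of_le (μ (Sum.inl r)).2 (by omega)⟩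
  let v : (R → Fin (k + 1)) → I × ((R ⊕ A) → Fin (d + 1)) → 𝓞 K := fun l p =>
    if low p.2 = l then c p.1 * ∏ t, a t ^ (p.2 (Sum.inr t) : ℕ) else 0
  let c' : (R → Fin (k + 1)) → Fin k → 𝓞 K := fun l => Function.extend e (v l) 0
  have hbd : ∀ l b (φ : K →+* ℂ), ‖φ (c' l b : K)‖ ≤ T ^ k := by
    intro l b φ
    have hT0 : (0 : ℝ) ≤ T ^ k := by positivity
    by_cases hb : ∃ p, e p = b
    · obtain ⟨p, rfl⟩ := hb
      simp only [c', e.injective.extend_apply, v]
      split_ifs
      · change ‖(φ.comp (algebraMap (𝓞 K) K)) (c p.1 * ∏ t, a t ^ (p.2 (Sum.inr t) : ℕ))‖ ≤ T ^ k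
        rw [map_mul, norm_mul, map_prod, norm_prod]
        have h1 : ∏ t, ‖(φ.comp (algebraMap (𝓞 K) K)) (a t ^ (p.2 (Sum.inr t) : ℕ))‖ ≤
            ∏ _t : A, (T ^ k0) ^ d := by
          refine Finset.prod_le_prod (fun t _ => norm_nonneg _) fun t _ => ?_
          rw [map_pow, norm_pow]
          calc ‖(φ.comp (algebraMap (𝓞 K) K)) (a t)‖ ^ (p.2 (Sum.inr t) : ℕ)
              ≤ (T ^ k0) ^ (p.2 (Sum.inr t) : ℕ) := pow_le_pow_left₀ (norm_nonneg _) (ha t φ) _
            _ ≤ (T ^ k0) ^ d := pow_le_pow_right₀ (one_le_pow₀ hT) (Nat.lt_succ_iff.1 (p.2 (Sum.inr t)).2)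
        rw [Finset.prod_const, Finset.card_univ] at h1
        calc _ ≤ T ^ k0 * ((T ^ k0) ^ d) ^ Fintype.card A :=
              mul_le_mul (hc _ φ) h1 (Finset.prod_nonneg fun _ _ => norm_nonneg _) (by positivity)
          _ = T ^ (k0 * (1 + d * Fintype.card A)) := by
              rw [← pow_mul, ← pow_mul, ← pow_add]
              congr 1
              ring
          _ ≤ T ^ k := pow_le_pow_right₀ hT hk
      · simpa using hT0
    · simp only [c', Function.extend_apply' _ _ _ hb]
      simpa using hT0
  have hexp : ∀ w : R → ℂ, ∑ i, io (c i : K) *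
      (lam i * MvPolynomial.eval (Sum.elim w fun t => io (a t : K)) (F i)) =
      poly (fun l b => io (c' l b : K)) (cst F lam k e) w := by
    intro w
    unfold poly
    have h1 : ∀ l, ∑ b, io (c' l b : K) * cst F lam k e b = ∑ p, io (v l p : K) *
        (lam p.1 * (F p.1).coeff (Finsupp.equivFunOnFinite.symm fun v => (p.2 v : ℕ))) :=
      fun l => sum_extend e io (v l) _
    simp only [h1, Finset.sum_mul]
    rw [Finset.sum_comm, Fintype.sum_prod_type]
    refine Finset.sum_congr rfl fun i _ => ?_
    rw [eval_expand (hF i), Finset.mul_sum, Finset.mul_sum]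
    refine Finset.sum_congr rfl fun μ _ => ?_
    rw [Finset.sum_eq_single (low μ)]
    · simp only [v, if_true, map_mul, map_prod, map_pow]
      have h2 : ∀ r, ((low μ r : Fin (k + 1)) : ℕ) = (μ (Sum.inl r) : ℕ) := fun r => rfl
      simp only [h2]
      ring
    · intro l _ hl
      simp only [v, if_neg (Ne.symm hl)]
      simp
    · intro h2
      exact absurd (Finset.mem_univ _) h2
  rw [hexp] at h0 ⊢
  have h1 := h c' hbd h0
  unfold poly
  refine Finset.sum_eq_zero fun l _ => ?_
  rw [h1 l, zero_mul]

end lin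

/-- the point of `T_o X` with the Harish-Chandra coordinates `P i / Q` at `(w, a)`: `w` are the coordinates of a point
`z₀` of the special subvariety, `a` the entries of `γ`, the point is `γ z₀` -/
noncomputable def point {R A I : Type} (P : I → MvPolynomial (R ⊕ A) ℂ) (Q : MvPolynomial (R ⊕ A) ℂ) (w : R → ℂ)
    (a : A → ℂ) : I → ℂ :=
  fun i => MvPolynomial.eval (Sum.elim w a) (P i) / MvPolynomial.eval (Sum.elim w a) Q

/-- the linear span in `T_o X` of the special subvariety `γ X_M`, that is of the points with the coordinates `P i / Q` for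
all `w` (and fixed `a`) -/
noncomputable def linSpan {R A I : Type} (P : I → MvPolynomial (R ⊕ A) ℂ) (Q : MvPolynomial (R ⊕ A) ℂ) (a : A → ℂ) :
    Submodule ℂ (I → ℂ) :=
  Submodule.span ℂ {z | ∃ w : R → ℂ, MvPolynomial.eval (Sum.elim w a) Q ≠ 0 ∧ z = point P Q w a}

/-- `V` is rational for the `ℚ̄`-structure of the vectors `w` with algebraic `lam i * w i` -/
def Rational {I : Type} (lam : I → ℂ) (V : Submodule ℂ (I → ℂ)) : Prop :=
  V = Submodule.span ℂ {w | w ∈ V ∧ ∀ i, IsAlgebraic ℚ (lam i * w i)}

/-- `V` is defined by equations `∑ i, c i * lam i * w i = 0` whose coefficients `c i` are integers of `K` with all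
conjugates at most `T ^ k` -/
def Defined {I : Type} [Fintype I] (lam : I → ℂ) (k : ℕ) (K : Type) [Field K] [NumberField K] (io : K →+* ℂ) (T : ℝ)
    (V : Submodule ℂ (I → ℂ)) : Prop :=
  ∃ E : Set (I → 𝓞 K), (∀ c ∈ E, ∀ i (φ : K →+* ℂ), ‖φ (c i : K)‖ ≤ T ^ k) ∧
    ∀ w, w ∈ V ↔ ∀ c ∈ E, ∑ i, io (c i : K) * (lam i * w i) = 0

/-- the assertion of Q1 for `z` and `V`: there is a subspace `V'` of `V` which contains `z` and is rational for the
geometric and for the arithmetic structure -/
def Yes {I : Type} (lam : I → ℂ) (V : Submodule ℂ (I → ℂ)) (z : I → ℂ) : Prop :=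
  ∃ V' ≤ V, z ∈ V' ∧ Rational (fun _ => 1) V' ∧ Rational lam V'

/-- the points with coordinates in `K` of height at most `T`, of norm at most `k` and at distance at least `1 / k` from the
complement of `U`, at which for some `γ` (with entries `a t`, integers of `K` with all conjugates at most `T ^ k`)
some subspace `V` of `T_o X` with small equations for the arithmetic structure contains `z = γ z₀` but not the span
of `γ X_M` -/
def Exceptional {X κ R A I : Type} [Fintype X] [Fintype I] {n : κ → ℕ} (U : Set (X → ℂ)) (Y : (X → ℂ) → MT n)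
    (num : R → MvPolynomial (Ix n) ℂ) (den : MvPolynomial (Ix n) ℂ) (P : I → MvPolynomial (R ⊕ A) ℂ)
    (Q : MvPolynomial (R ⊕ A) ℂ) (lam : I → ℂ) (k : ℕ) (K : Type) [Field K] [NumberField K] (io : K →+* ℂ) (T : ℝ) :
    Set (X → K) :=
  {s | (∀ j, Y120.HtLe K T (s j)) ∧ (fun j => io (s j)) ∈ InnerM U k ∧
    ∃ (a : A → 𝓞 K) (V : Submodule ℂ (I → ℂ)), (∀ t (φ : K →+* ℂ), ‖φ (a t : K)‖ ≤ T ^ k) ∧ Defined lam k K io T V ∧
      MvPolynomial.eval (Sum.elim (fun r => coord Y num den r fun j => io (s j)) fun t => io (a t : K)) Q ≠ 0 ∧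
      point P Q (fun r => coord Y num den r fun j => io (s j)) (fun t => io (a t : K)) ∈ V ∧
      ¬ linSpan P Q (fun t => io (a t : K)) ≤ V}

/-- the points with coordinates in `K` of height at most `T`, of norm at most `k` and at distance at least `1 / k` from the
complement of `U`, at which for some `γ` with the property `C` (with entries `a t`, integers of `K` with all conjugates at
most `T ^ k`) and some subspace `V` of `T_o X`, rational for the arithmetic structure and with small equations,
`z = γ z₀` is in `V` and the assertion of Q1 is false for `z` and `V` -/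
def Failure {X κ R A I : Type} [Fintype X] [Fintype I] {n : κ → ℕ} (U : Set (X → ℂ)) (Y : (X → ℂ) → MT n)
    (num : R → MvPolynomial (Ix n) ℂ) (den : MvPolynomial (Ix n) ℂ) (P : I → MvPolynomial (R ⊕ A) ℂ)
    (Q : MvPolynomial (R ⊕ A) ℂ) (lam : I → ℂ) (C : (A → ℂ) → Prop) (k : ℕ) (K : Type) [Field K] [NumberField K]
    (io : K →+* ℂ) (T : ℝ) : Set (X → K) :=
  {s | (∀ j, Y120.HtLe K T (s j)) ∧ (fun j => io (s j)) ∈ InnerM U k ∧
    ∃ (a : A → 𝓞 K) (V : Submodule ℂ (I → ℂ)), (∀ t (φ : K →+* ℂ), ‖φ (a t : K)‖ ≤ T ^ k) ∧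
      C (fun t => io (a t : K)) ∧ Defined lam k K io T V ∧ Rational lam V ∧
      MvPolynomial.eval (Sum.elim (fun r => coord Y num den r fun j => io (s j)) fun t => io (a t : K)) Q ≠ 0 ∧
      point P Q (fun r => coord Y num den r fun j => io (s j)) (fun t => io (a t : K)) ∈ V ∧
      ¬ Yes lam V (point P Q (fun r => coord Y num den r fun j => io (s j)) (fun t => io (a t : K)))}

/-- sums of rational subspaces are rational -/
theorem rational_iSup {I J : Type} (lam : I → ℂ) (W : J → Submodule ℂ (I → ℂ)) (h : ∀ j, Rational lam (W j)) :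
    Rational lam (⨆ j, W j) := by
  apply le_antisymm
  · refine iSup_le fun j => ?_
    rw [h j]
    refine Submodule.span_mono ?_
    rintro w ⟨hw, hw'⟩
    exact ⟨le_iSup W j hw, hw'⟩
  · rw [Submodule.span_le]
    exact fun w hw => hw.1

/-- Q1 for points which span `L` implies Q1 for the points of `L` and the subspaces which contain `L` -/
theorem yes_of_span {I : Type} (lam : I → ℂ) {Sp : Set (I → ℂ)} {V L : Submodule ℂ (I → ℂ)}
    (hSp : ∀ v ∈ Sp, v ∈ V → Yes lam V v) (hL : L ≤ Submodule.span ℂ (Sp ∩ L)) (hLV : L ≤ V) {z : I → ℂ}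
    (hz : z ∈ L) : Yes lam V z := by
  choose! W hW1 hW2 hW3 hW4 using hSp
  let J := {v : I → ℂ // v ∈ Sp ∧ v ∈ L}
  refine ⟨⨆ v : J, W v.1, iSup_le fun v => hW1 v.1 v.2.1 (hLV v.2.2), ?_, rational_iSup _ _ fun v =>
    hW3 v.1 v.2.1 (hLV v.2.2), rational_iSup _ _ fun v => hW4 v.1 v.2.1 (hLV v.2.2)⟩
  have h1 : Submodule.span ℂ (Sp ∩ L) ≤ ⨆ v : J, W v.1 := by
    rw [Submodule.span_le]
    rintro v ⟨hv1, hv2⟩
    exact le_iSup (fun v : J => W v.1) ⟨v, hv1, hv2⟩ (hW2 v hv1 (hLV hv2))
  exact h1 (hL hz)

/-- subspaces spanned by multiples of rational vectors are rational -/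
theorem rational_of_gen {I : Type} {lam : I → ℂ} {S : Set (I → ℂ)}
    (h : ∀ v ∈ S, ∃ c : ℂ, c ≠ 0 ∧ ∀ i, IsAlgebraic ℚ (lam i * (c * v i))) :
    Rational lam (Submodule.span ℂ S) := by
  apply le_antisymm
  · rw [Submodule.span_le]
    intro v hv
    obtain ⟨c, hc, hc'⟩ := h v hv
    have h1 : v = c⁻¹ • (c • v) := by rw [smul_smul, inv_mul_cancel₀ hc, one_smul]
    rw [SetLike.mem_coe, h1]
    exact Submodule.smul_mem _ _ (Submodule.subset_span ⟨Submodule.smul_mem _ _ (Submodule.subset_span hv),
      fun i => by rw [Pi.smul_apply, smul_eq_mul]; exact hc' i⟩)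
  · rw [Submodule.span_le]
    exact fun w hw => hw.1

/-- Q1 for points with algebraic coordinates if the numbers `lam i` are a geometric progression up to algebraic factors -/
theorem yes_of_progression {I : Type} [Fintype I] {lam : I → ℂ} {ν θ : ℂ} {m : I → ℕ} (hlam : ∀ i, lam i ≠ 0)
    (h : ∀ i, IsAlgebraic ℚ (lam i / (ν * θ ^ m i))) (hν : ν ≠ 0) (hθ : θ ≠ 0) {V : Submodule ℂ (I → ℂ)}
    (hV : Rational lam V) {v : I → ℂ} (hv : ∀ i, IsAlgebraic ℚ (v i)) (hvV : v ∈ V) : Yes lam V v := by
  classical
  by_cases hal : IsAlgebraic ℚ θ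
  · -- all `lam i / ν` are algebraic
    have h1 : ∀ i, IsAlgebraic ℚ (ν / lam i) := by
      intro i
      have h2 : ν / lam i = (lam i / (ν * θ ^ m i))⁻¹ * (θ ^ m i)⁻¹ := by
        field_simp
      rw [h2]
      exact (h i).inv.mul (hal.pow _).inv
    refine ⟨V, le_rfl, hvV, ?_, hV⟩
    have h3 : V = Submodule.span ℂ {w | w ∈ V ∧ ∀ i, IsAlgebraic ℚ (lam i * w i)} := hV
    rw [h3]
    apply rational_of_gen
    rintro w ⟨_, hw⟩
    refine ⟨ν, hν, fun i => ?_⟩
    have h4 : 1 * (ν * w i) = (ν / lam i) * (lam i * w i) := by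
      field_simp [hlam i]
    rw [h4]
    exact (h1 i).mul (hw i)
  · let k := algebraicClosure ℚ ℂ
    have hmem : ∀ z : ℂ, IsAlgebraic ℚ z → z ∈ k := fun z hz => (mem_algebraicClosure_iff).2 hz
    have htr : Transcendental k θ := by
      intro h0
      have : Algebra.IsAlgebraic ℚ k := algebraicClosure.isAlgebraic ℚ ℂ
      exact hal (h0.restrictScalars ℚ)
    let β : I → k := fun i => ⟨lam i / (ν * θ ^ m i), hmem _ (h i)⟩
    let vk : I → k := fun i => ⟨v i, hmem _ (hv i)⟩
    let part : ℕ → I → ℂ := fun N i => if m i = N then v i else 0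
    let u : ℕ → I → k := fun N i => if m i = N then β i * vk i else 0
    let M : Submodule k (I → k) :=
      { carrier := {u | (fun i => (lam i)⁻¹ * (u i : ℂ)) ∈ V}
        zero_mem' := by
          have : (fun i : I => (lam i)⁻¹ * (((0 : I → k) i : k) : ℂ)) = 0 := by
            funext i
            simp
          rw [Set.mem_ofPred_eq, this]
          exact V.zero_mem
        add_mem' := by
          intro a b ha hb
          rw [Set.mem_ofPred_eq] at *
          have : (fun i : I => (lam i)⁻¹ * (((a + b : I → k) i : k) : ℂ)) =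
              (fun i => (lam i)⁻¹ * (a i : ℂ)) + fun i => (lam i)⁻¹ * (b i : ℂ) := by
            funext i
            simp [mul_add]
          rw [this]
          exact V.add_mem ha hb
        smul_mem' := by
          intro c a ha
          rw [Set.mem_ofPred_eq] at *
          have : (fun i : I => (lam i)⁻¹ * (((c • a : I → k) i : k) : ℂ)) =
              (c : ℂ) • (fun i => (lam i)⁻¹ * (a i : ℂ)) := by
            funext i
            simp [smul_eq_mul]
            ring
          rw [this]
          exact V.smul_mem _ ha }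
    have hpart : ∀ N, part N ∈ V := by
      intro N
      have hu : u N ∈ M := by
        by_contra hcon
        obtain ⟨f, hf1, hf2⟩ := Submodule.exists_dual_map_eq_bot_of_notMem hcon inferInstance
        have hfM : ∀ x ∈ M, f x = 0 := by
          intro x hx
          have h5 : f x ∈ M.map f := Submodule.mem_map_of_mem hx
          rw [hf2] at h5
          exact h5
        let e : I → k := fun i => f (fun j => if i = j then 1 else 0)
        have hfe : ∀ x : I → k, f x = ∑ i, x i * e i := by
          intro x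
          rw [LinearMap.pi_apply_eq_sum_univ f x]
          rfl
        -- the equation holds on `V`
        let ℓ : (I → ℂ) →ₗ[ℂ] ℂ := ∑ i, ((e i : ℂ) * lam i) • LinearMap.proj i
        have hℓ : ∀ w, ℓ w = ∑ i, (e i : ℂ) * (lam i * w i) := by
          intro w
          simp [ℓ, LinearMap.sum_apply, mul_assoc]
        have heq : V ≤ LinearMap.ker ℓ := by
          have h7 : V = Submodule.span ℂ {w | w ∈ V ∧ ∀ i, IsAlgebraic ℚ (lam i * w i)} := hV
          rw [h7, Submodule.span_le]
          rintro w ⟨hw1, hw2⟩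
          rw [SetLike.mem_coe, LinearMap.mem_ker, hℓ]
          have h8 := hfM (fun i => ⟨lam i * w i, hmem _ (hw2 i)⟩) (by
            change (fun i => (lam i)⁻¹ * (lam i * w i)) ∈ V
            have : (fun i => (lam i)⁻¹ * (lam i * w i)) = w := by
              funext i
              rw [← mul_assoc, inv_mul_cancel₀ (hlam i), one_mul]
            rw [this]
            exact hw1)
          rw [hfe] at h8
          have h9 := congrArg (algebraMap k ℂ) h8
          rw [map_sum, map_zero] at h9
          rw [← h9]
          refine Finset.sum_congr rfl fun i _ => ?_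
          rw [map_mul, mul_comm]
          rfl
        have h11 := heq hvV
        rw [LinearMap.mem_ker, hℓ] at h11
        -- the polynomial
        let p : Polynomial k := ∑ i, Polynomial.C (e i * (β i * vk i)) * Polynomial.X ^ m i
        have hp0 : Polynomial.aeval θ p = 0 := by
          have h12 : ν * Polynomial.aeval θ p = ∑ i, (e i : ℂ) * (lam i * v i) := by
            rw [map_sum, Finset.mul_sum]
            refine Finset.sum_congr rfl fun i _ => ?_
            rw [map_mul, map_pow, Polynomial.aeval_X, Polynomial.aeval_C, map_mul, map_mul]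
            have h13 : (algebraMap k ℂ) (β i) = lam i / (ν * θ ^ m i) := rfl
            have h14 : (algebraMap k ℂ) (vk i) = v i := rfl
            have h15 : (algebraMap k ℂ) (e i) = (e i : ℂ) := rfl
            rw [h13, h14, h15]
            field_simp
          rw [h11] at h12
          exact (mul_eq_zero.1 h12).resolve_left hν
        have hp : p = 0 := by
          by_contra hne
          exact htr ⟨p, hne, hp0⟩
        apply hf1
        rw [hfe]
        have h16 := congrArg (fun q => Polynomial.coeff q N) hp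
        simp only [p, Polynomial.finsetSum_coeff, Polynomial.coeff_C_mul, Polynomial.coeff_X_pow,
          Polynomial.coeff_zero] at h16
        rw [← h16]
        refine Finset.sum_congr rfl fun i _ => ?_
        simp only [u]
        by_cases hmi : m i = N
        · rw [if_pos hmi, if_pos hmi.symm]
          ring
        · rw [if_neg hmi, if_neg (Ne.symm hmi)]
          ring
      have h17 : part N = (ν * θ ^ N) • (fun i => (lam i)⁻¹ * (u N i : ℂ)) := by
        funext i
        rw [Pi.smul_apply, smul_eq_mul]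
        simp only [part, u]
        split_ifs with hmi
        · have h13 : ((β i * vk i : k) : ℂ) = lam i / (ν * θ ^ m i) * v i := rfl
          rw [h13, hmi]
          have := hlam i
          field_simp
        · simp
      rw [h17]
      exact V.smul_mem _ hu
    refine ⟨Submodule.span ℂ (Set.range part), ?_, ?_, ?_, ?_⟩
    · rw [Submodule.span_le]
      rintro _ ⟨N, rfl⟩
      exact hpart N
    · have h18 : v = ∑ N ∈ Finset.univ.image m, part N := by
        funext i
        rw [Finset.sum_apply, Finset.sum_eq_single (m i)]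
        · simp [part]
        · intro N _ hN
          simp only [part, if_neg (Ne.symm hN)]
        · intro h19
          exact absurd (Finset.mem_image_of_mem m (Finset.mem_univ i)) h19
      have h20 : (∑ N ∈ Finset.univ.image m, part N) ∈ Submodule.span ℂ (Set.range part) :=
        Submodule.sum_mem _ fun N _ => Submodule.subset_span ⟨N, rfl⟩
      rw [← h18] at h20
      exact h20
    · apply rational_of_gen
      rintro _ ⟨N, rfl⟩
      refine ⟨1, one_ne_zero, fun i => ?_⟩
      rw [one_mul, one_mul]
      simp only [part]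
      split_ifs
      · exact hv i
      · exact isAlgebraic_zero
    · apply rational_of_gen
      rintro _ ⟨N, rfl⟩
      refine ⟨(ν * θ ^ N)⁻¹, inv_ne_zero (mul_ne_zero hν (pow_ne_zero _ hθ)), fun i => ?_⟩
      simp only [part]
      split_ifs with hmi
      · have h21 : lam i * ((ν * θ ^ N)⁻¹ * v i) = lam i / (ν * θ ^ m i) * v i := by
          rw [hmi]
          ring
        rw [h21]
        exact (h i).mul (hv i)
      · simp only [mul_zero]
        exact isAlgebraic_zero

/-- the vectors with algebraic coordinates -/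
def AlgVec (I : Type) : Set (I → ℂ) := {v | ∀ i, IsAlgebraic ℚ (v i)}

/-- values of polynomials with algebraic coefficients at algebraic points are algebraic -/
theorem eval_alg {σ : Type} {p : MvPolynomial σ ℂ} (hp : ∀ m, IsAlgebraic ℚ (p.coeff m)) {x : σ → ℂ}
    (hx : ∀ i, IsAlgebraic ℚ (x i)) : IsAlgebraic ℚ (MvPolynomial.eval x p) := by
  rw [← mem_algebraicClosure_iff, MvPolynomial.eval_eq]
  refine sum_mem fun m _ => mul_mem (mem_algebraicClosure_iff.2 (hp m)) (prod_mem fun i _ => pow_mem ?_ _)
  exact mem_algebraicClosure_iff.2 (hx i)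

/-- the span of a special subvariety over `ℚ̄` is spanned by points with algebraic coordinates -/
theorem linSpan_alg {R A I : Type} [Finite R] [Fintype I] {P : I → MvPolynomial (R ⊕ A) ℂ} {Q : MvPolynomial (R ⊕ A) ℂ}
    (hP : ∀ i m, IsAlgebraic ℚ ((P i).coeff m)) {a : A → ℂ} (ha : ∀ t, IsAlgebraic ℚ (a t)) :
    linSpan P Q a ≤ Submodule.span ℂ (AlgVec I ∩ linSpan P Q a) := by
  classical
  conv_lhs => rw [linSpan]
  rw [Submodule.span_le]
  rintro _ ⟨w, hw, rfl⟩
  by_contra hcon
  obtain ⟨f, hf1, hf2⟩ := Submodule.exists_dual_map_eq_bot_of_notMem hcon inferInstance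
  have hfM : ∀ x ∈ Submodule.span ℂ (AlgVec I ∩ linSpan P Q a), f x = 0 := by
    intro x hx
    have h5 : f x ∈ (Submodule.span ℂ (AlgVec I ∩ (linSpan P Q a : Set (I → ℂ)))).map f :=
      Submodule.mem_map_of_mem hx
    rw [hf2] at h5
    exact h5
  let e : I → ℂ := fun i => f (fun j => if i = j then 1 else 0)
  have hfe : ∀ x : I → ℂ, f x = ∑ i, x i * e i := by
    intro x
    rw [LinearMap.pi_apply_eq_sum_univ f x]
    rfl
  let sp : MvPolynomial (R ⊕ A) ℂ →ₐ[ℂ] MvPolynomial R ℂ :=
    MvPolynomial.aeval (Sum.elim MvPolynomial.X fun t => MvPolynomial.C (a t))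
  have hsp : ∀ (p : MvPolynomial (R ⊕ A) ℂ) (w : R → ℂ), MvPolynomial.eval w (sp p) =
      MvPolynomial.eval (Sum.elim w a) p := by
    intro p w
    induction p using MvPolynomial.induction_on with
    | C c => simp [sp]
    | add p q hp hq => rw [map_add, map_add, hp, hq, map_add]
    | mul_X p i hp =>
      rw [map_mul, map_mul, hp, map_mul, MvPolynomial.eval_X]
      congr 1
      rcases i with i | i <;> simp [sp]
  let F : MvPolynomial R ℂ := (∑ i, MvPolynomial.C (e i) * sp (P i)) * sp Q
  have hF : ∀ w : R → ℂ, MvPolynomial.eval w F =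
      (∑ i, e i * MvPolynomial.eval (Sum.elim w a) (P i)) * MvPolynomial.eval (Sum.elim w a) Q := by
    intro w
    simp only [F, map_mul, map_sum, MvPolynomial.eval_C, hsp]
  have hpt : ∀ w : R → ℂ, MvPolynomial.eval (Sum.elim w a) Q ≠ 0 →
      (fun i => MvPolynomial.eval (Sum.elim w a) (P i)) = MvPolynomial.eval (Sum.elim w a) Q • point P Q w a := by
    intro w hw
    funext i
    rw [Pi.smul_apply, smul_eq_mul, point, mul_div_cancel₀ _ hw]
  have hF0 : F = 0 := by
    apply MvPolynomial.funext_set (fun _ : R => {z : ℂ | IsAlgebraic ℚ z})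
    · intro _
      refine Set.Infinite.mono (s := Set.range fun n : ℕ => (n : ℂ)) ?_ (Set.infinite_range_of_injective Nat.cast_injective)
      rintro _ ⟨n, rfl⟩
      exact isAlgebraic_natCast n
    · intro x hx
      rw [hF, map_zero]
      by_cases hq : MvPolynomial.eval (Sum.elim x a) Q = 0
      · rw [hq, mul_zero]
      · have h1 : f (fun i => MvPolynomial.eval (Sum.elim x a) (P i)) = 0 := by
          apply hfM
          apply Submodule.subset_span
          refine ⟨fun i => eval_alg (hP i) ?_, ?_⟩
          · rintro (r | t)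
            · exact hx r (Set.mem_univ _)
            · exact ha t
          · rw [hpt x hq]
            exact Submodule.smul_mem _ _ (Submodule.subset_span ⟨x, hq, rfl⟩)
        rw [hfe] at h1
        have h2 : ∑ i, e i * MvPolynomial.eval (Sum.elim x a) (P i) = 0 := by
          rw [← h1]
          exact Finset.sum_congr rfl fun i _ => mul_comm _ _
        rw [h2, zero_mul]
  apply hf1
  have h3 := hF w
  rw [hF0, map_zero] at h3
  have h4 := (mul_eq_zero.1 h3.symm).resolve_right hw
  rw [hfe]
  have h5 : ∑ i, point P Q w a i * e i = (∑ i, e i * MvPolynomial.eval (Sum.elim w a) (P i)) /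
      MvPolynomial.eval (Sum.elim w a) Q := by
    rw [Finset.sum_div]
    refine Finset.sum_congr rfl fun i _ => ?_
    unfold point
    ring
  rw [h5, h4, zero_div]

/-- subsets of few points are few -/
theorem few_sub {X : Type} [Fintype X] {k : ℕ} {K : Type} [Field K] [NumberField K] {io : K →+* ℂ} {T : ℝ}
    {S S' : Set (X → K)} (hS : S' ⊆ S) (h : Few k K io T S) : Few k K io T S' :=
  ⟨h.1.mono le_rfl le_rfl (Set.image_mono hS), h.2.1.subset hS,
    le_trans (by exact_mod_cast Set.ncard_le_ncard hS h.2.1) h.2.2⟩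

/-- a smaller parameter gives a weaker assertion -/
theorem few_mono {X : Type} [Fintype X] {k k' : ℕ} (hk : 0 < k') (hkk : k' ≤ k) {K : Type} [Field K] [NumberField K]
    {io : K →+* ℂ} {T : ℝ} (hT : 1 ≤ T) {S S' : Set (X → K)} (hS : S' ⊆ S) (h : Few k K io T S) :
    Few k' K io T S' := by
  obtain ⟨h1, h2, h3⟩ := h
  have h4 : T ^ ((k : ℝ)⁻¹) ≤ T ^ ((k' : ℝ)⁻¹) := by
    apply Real.rpow_le_rpow_of_exponent_le hT
    exact inv_anti₀ (by exact_mod_cast hk) (by exact_mod_cast hkk)
  refine ⟨h1.mono (Nat.floor_mono h4) (Nat.floor_mono h4) (Set.image_mono hS), h2.subset hS, ?_⟩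
  refine le_trans (by exact_mod_cast Set.ncard_le_ncard hS h2) (h3.trans ?_)
  exact mul_le_mul_of_nonneg_right h4 (by positivity)

/-- the compact subsets increase -/
theorem inner_mono {X : Type} [Fintype X] (U : Set (X → ℂ)) {k k' : ℕ} (hk : 0 < k') (hkk : k' ≤ k) :
    InnerM U k' ⊆ InnerM U k := by
  rintro z ⟨h1, h2⟩
  refine ⟨h1.trans (by exact_mod_cast hkk), (Metric.ball_subset_ball ?_).trans h2⟩
  exact inv_anti₀ (by exact_mod_cast hk) (by exact_mod_cast hkk)

/-- the loss in the parameter `ω` -/
def gg (r k : ℕ) : ℕ := k * (k + 1) ^ (r + k) + k * (1 + k * k)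

theorem le_gg (r k : ℕ) : k ≤ gg r k := by
  unfold gg
  have h1 : 1 ≤ 1 + k * k := by omega
  have h2 : k * 1 ≤ k * (1 + k * k) := Nat.mul_le_mul_left k h1
  omega

/-- **The first part of the theorem.** -/
theorem main {X κ R : Type} [Fintype X] [DecidableEq X] [Nonempty X] [Finite κ] [Fintype R] [DecidableEq R] {n : κ → ℕ}
    (U : Set (X → ℂ)) (Y : (X → ℂ) → MT n) (G : Set (MT n)) (num : R → MvPolynomial (Ix n) ℂ)
    (den : MvPolynomial (Ix n) ℂ) (h : Family U Y G num den) :
    ∃ (ω : ℝ → ℕ) (T₀ : ℝ), Tendsto ω atTop atTop ∧ Monotone ω ∧ ∀ T, T₀ ≤ T → 0 < ω T ∧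
      ∀ (K : Type) [Field K] [NumberField K], Module.finrank ℚ K ≤ ω T → ∀ (io : K →+* ℂ) (I A : Type) [Fintype I]
        [Fintype A], Fintype.card I ≤ ω T → Fintype.card A ≤ ω T → ∀ (P : I → MvPolynomial (R ⊕ A) ℂ)
        (Q : MvPolynomial (R ⊕ A) ℂ), (∀ i v, (P i).degreeOf v ≤ ω T) → ∀ lam : I → ℂ,
        Few (ω T) K io T (Exceptional U Y num den P Q lam (ω T) K io T) := by
  classical
  obtain ⟨ω, T₀, h1, h2, h3⟩ := almostAll_of_indep h.isPreconnected h.isOpen h.nonempty (coord_an h) (coord_indep h)
  set r := Fintype.card R with hr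
  let ω' : ℝ → ℕ := fun T => Nat.findGreatest (fun k => gg r k ≤ ω T) (ω T)
  have hg : ∀ T, gg r (ω' T) ≤ ω T := fun T =>
    Nat.findGreatest_spec (P := fun k => gg r k ≤ ω T) (Nat.zero_le _) (by simp [gg])
  have hle : ∀ T b, gg r b ≤ ω T → b ≤ ω' T := fun T b hb =>
    Nat.le_findGreatest ((le_gg r b).trans hb) hb
  have ht : Tendsto ω' atTop atTop := by
    rw [tendsto_atTop]
    intro b
    filter_upwards [h1.eventually_ge_atTop (gg r b)] with T hT
    exact hle T b hT
  have hm : Monotone ω' := by
    intro T T' hTT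
    exact hle T' _ ((hg T).trans (h2 hTT))
  obtain ⟨T₁, hT₁⟩ := Filter.eventually_atTop.1 (ht.eventually_ge_atTop 1)
  refine ⟨ω', max (max T₀ T₁) 1, ht, hm, fun T hT => ?_⟩
  have ha : T₀ ≤ T := (le_max_left _ _).trans ((le_max_left _ _).trans hT)
  have hb : T₁ ≤ T := (le_max_right _ _).trans ((le_max_left _ _).trans hT)
  have hc : 1 ≤ T := (le_max_right _ _).trans hT
  have hpos : 0 < ω' T := hT₁ T hb
  have hww : ω' T ≤ ω T := (le_gg r _).trans (hg T)
  refine ⟨hpos, fun K _ _ hK io I A _ _ hI hA P Q hP lam => ?_⟩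
  have hcard : Fintype.card (I × ((R ⊕ A) → Fin (ω' T + 1))) ≤ Fintype.card (Fin (ω T)) := by
    rw [Fintype.card_prod, Fintype.card_fun, Fintype.card_fin, Fintype.card_fin, Fintype.card_sum]
    refine le_trans ?_ (hg T)
    unfold gg
    refine le_trans (Nat.mul_le_mul hI (Nat.pow_le_pow_right (Nat.succ_pos _) (Nat.add_le_add_left hA _))) ?_
    exact Nat.le_add_right _ _
  obtain ⟨e⟩ := Function.Embedding.nonempty_of_card_le hcard
  have hk : ω' T * (1 + ω' T * Fintype.card A) ≤ ω T := by
    refine le_trans ?_ (hg T)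
    unfold gg
    refine le_trans (Nat.mul_le_mul_left _ (Nat.add_le_add_left (Nat.mul_le_mul_left _ hA) _)) ?_
    exact Nat.le_add_left _ _
  refine few_mono hpos hww hc ?_ ((h3 T ha).2 K (hK.trans hww) io (cst P lam (ω T) e))
  rintro s ⟨hs1, hs2, a, V, hs3, ⟨E, hE1, hE2⟩, hs5, hs6, hs7⟩
  refine ⟨hs1, inner_mono U hpos hww hs2, fun hI => hs7 ?_⟩
  rw [linSpan, Submodule.span_le]
  rintro _ ⟨w, hw, rfl⟩
  rw [SetLike.mem_coe, hE2]
  intro c hcE
  have h5 := (hE2 _).1 hs6 c hcE
  have hdiv : ∀ w : R → ℂ, MvPolynomial.eval (Sum.elim w fun t => io (a t : K)) Q ≠ 0 →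
      ∑ i, io (c i : K) * (lam i * point P Q w (fun t => io (a t : K)) i) =
        (∑ i, io (c i : K) * (lam i * MvPolynomial.eval (Sum.elim w fun t => io (a t : K)) (P i))) /
          MvPolynomial.eval (Sum.elim w fun t => io (a t : K)) Q := by
    intro w hw
    rw [Finset.sum_div]
    refine Finset.sum_congr rfl fun i _ => ?_
    unfold point
    ring
  rw [hdiv _ hs5, div_eq_zero_iff] at h5
  rw [hdiv w hw, key P lam hP hww e hc hI c a hk (hE1 c hcE) hs3 (h5.resolve_right hs5) w, zero_div]

/-- Let `(Y, G, num, den)` be a family on the connected open set `U ⊆ ℂ ^ X`, with the coordinates `coord` of the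
points `z₀` of a (weakly) special subvariety. There is `ω → ∞` such that the following holds for all large `T`, all number
fields `K` of degree at most `ω T` and all embeddings `io`, and for all `P`, `Q`, `lam` (that is for all special
points `o`) with at most `ω T` coordinates and degrees at most `ω T`:
(1) The exceptional points, at which some subspace with small equations for the arithmetic structure contains some
`z = γ z₀` but not the linear span of `γ X_M`, lie on at most `T ^ (1 / ω T)` hypersurfaces of degree at most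
`T ^ (1 / ω T)`, and there are at most `T ^ (1 / ω T) * N ^ (|X| - 1)` of them, `N` being the number of elements of `K` of
height at most `T`.
(2) If the assertion of Q1 is true for the points of the set `Sp` (the special points) and all subspaces, then the same
holds for the points at which Q1 is false for some `z = γ z₀`, where the span of `γ X_M` is spanned by points of `Sp`, and some
subspace with small equations.
(3) If the coefficients of `P` are algebraic and the numbers `lam i / (ν * θ ^ m i)` are algebraic for some `ν`, `θ`, `m`,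
then the same holds for the points at which Q1 is false for some `z = γ z₀` and some subspace with small equations. -/
theorem result {X κ R : Type} [Fintype X] [DecidableEq X] [Nonempty X] [Finite κ] [Fintype R] [DecidableEq R]
    {n : κ → ℕ} (U : Set (X → ℂ)) (Y : (X → ℂ) → MT n) (G : Set (MT n)) (num : R → MvPolynomial (Ix n) ℂ)
    (den : MvPolynomial (Ix n) ℂ) (h : Family U Y G num den) :
    ∃ (ω : ℝ → ℕ) (T₀ : ℝ), Tendsto ω atTop atTop ∧ Monotone ω ∧ ∀ T, T₀ ≤ T → 0 < ω T ∧
      ∀ (K : Type) [Field K] [NumberField K], Module.finrank ℚ K ≤ ω T → ∀ (io : K →+* ℂ) (I A : Type) [Fintype I]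
        [Fintype A], Fintype.card I ≤ ω T → Fintype.card A ≤ ω T → ∀ (P : I → MvPolynomial (R ⊕ A) ℂ)
        (Q : MvPolynomial (R ⊕ A) ℂ), (∀ i v, (P i).degreeOf v ≤ ω T) → ∀ lam : I → ℂ,
        Few (ω T) K io T (Exceptional U Y num den P Q lam (ω T) K io T) ∧
        (∀ Sp : Set (I → ℂ), (∀ v ∈ Sp, ∀ V, Rational lam V → v ∈ V → Yes lam V v) →
          Few (ω T) K io T (Failure U Y num den P Q lam
            (fun a => linSpan P Q a ≤ Submodule.span ℂ (Sp ∩ linSpan P Q a)) (ω T) K io T)) ∧
        ((∀ i m, IsAlgebraic ℚ ((P i).coeff m)) → (∀ i, lam i ≠ 0) →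
          (∃ (ν θ : ℂ) (m : I → ℕ), ν ≠ 0 ∧ θ ≠ 0 ∧ ∀ i, IsAlgebraic ℚ (lam i / (ν * θ ^ m i))) →
          Few (ω T) K io T (Failure U Y num den P Q lam (fun _ => True) (ω T) K io T)) := by
  classical
  obtain ⟨ω, T₀, h1, h2, h3⟩ := main U Y G num den h
  refine ⟨ω, T₀, h1, h2, fun T hT => ⟨(h3 T hT).1, fun K _ _ hK io I A _ _ hI hA P Q hP lam => ?_⟩⟩
  have hE := (h3 T hT).2 K hK io I A hI hA P Q hP lam
  have hmem : ∀ (w : R → ℂ) (a : A → ℂ), MvPolynomial.eval (Sum.elim w a) Q ≠ 0 → point P Q w a ∈ linSpan P Q a :=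
    fun w a hw => Submodule.subset_span ⟨w, hw, rfl⟩
  have hfail : ∀ (Sp : Set (I → ℂ)) (C : (A → ℂ) → Prop), (∀ v ∈ Sp, ∀ V, Rational lam V → v ∈ V → Yes lam V v) →
      (∀ a : A → 𝓞 K, C (fun t => io (a t : K)) → linSpan P Q (fun t => io (a t : K)) ≤
        Submodule.span ℂ (Sp ∩ linSpan P Q (fun t => io (a t : K)))) →
      Few (ω T) K io T (Failure U Y num den P Q lam C (ω T) K io T) := by
    intro Sp C hSp hC
    refine few_sub ?_ hE
    rintro s ⟨hs1, hs2, a, V, ha, hCa, hD, hR, hQ, hz, hno⟩
    refine ⟨hs1, hs2, a, V, ha, hD, hQ, hz, fun hLV => hno ?_⟩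
    exact yes_of_span lam (fun v hv hvV => hSp v hv V hR hvV) (hC a hCa) hLV (hmem _ _ hQ)
  refine ⟨hE, fun Sp hSp => hfail Sp _ hSp fun a ha => ha, fun hPa hlam hprog => ?_⟩
  obtain ⟨ν, θ, m, hν, hθ, hm⟩ := hprog
  refine hfail (AlgVec I) _ (fun v hv V hR hvV => yes_of_progression hlam hm hν hθ hR hv hvV) fun a _ =>
    linSpan_alg hPa fun t => ?_
  have h4 : IsAlgebraic ℚ ((a t : 𝓞 K) : K) := Algebra.IsAlgebraic.isAlgebraic _
  exact h4.algHom io.toRatAlgHom

end Pool.Agent.Results.MP_1e27bd_ag.AllShimuraVarieties
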